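import Pool.Agent.N782.GN.StmB
import Pool.Agent.Helper112.LS

/-! # The large sieve over the moduli `d > Q` with the weights `1 / d` (project GN of helper782) -/

set_option autoImplicit false

open Finset

namespace Pool.Agent.N494.GN

open Pool.Agent.N782.GN

lemma ee_eq (x : ℝ) : ee x = Pool.Agent.Helper112.ee x := by
  unfold ee Pool.Agent.Helper112.ee
  congr 1
  ring

lemma shift (n : ℕ) (x : ℤ) (lam : ℤ → ℝ) (a d : ℕ) :
    ‖∑ l ∈ Ioc x (x + n), (lam l : ℂ) * ee (a * l / d)‖ =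
      ‖∑ m ∈ Icc 1 n, (lam (x + m) : ℂ) * Pool.Agent.Helper112.ee (m * a / d)‖ := by
  have h1 : ∑ l ∈ Ioc x (x + n), (lam l : ℂ) * ee (a * l / d) =
      ∑ m ∈ Icc 1 n, (lam (x + m) : ℂ) * ee (a * ((x + m : ℤ) : ℝ) / d) := by
    symm
    refine sum_bij (fun m _ => x + (m : ℤ)) ?_ ?_ ?_ ?_
    · intro m hm
      rw [mem_Icc] at hm
      rw [mem_Ioc]
      omega
    · intro m _ m' _ h
      simp only [add_right_inj, Nat.cast_inj] at h
      exact h
    · intro l hl
      rw [mem_Ioc] at hl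
      refine ⟨(l - x).toNat, ?_, ?_⟩
      · rw [mem_Icc]
        omega
      · rw [Int.toNat_of_nonneg (by omega)]
        ring
    · intro m _
      rfl
  have h2 : ∑ m ∈ Icc 1 n, (lam (x + m) : ℂ) * ee (a * ((x + m : ℤ) : ℝ) / d) =
      Pool.Agent.Helper112.ee (a * x / d) *
        ∑ m ∈ Icc 1 n, (lam (x + m) : ℂ) * Pool.Agent.Helper112.ee (m * a / d) := by
    rw [mul_sum]
    refine sum_congr rfl fun m _ => ?_
    have e : (a * ((x + m : ℤ) : ℝ) / d : ℝ) = a * x / d + m * a / d := by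
      push_cast
      ring
    rw [ee_eq, e, Pool.Agent.Helper112.ls_ee_add]
    ring
  rw [h1, h2, norm_mul, Pool.Agent.Helper112.ls_norm_ee, one_mul]

theorem lsd : S_LSD := by
  refine ⟨12, by norm_num, fun Q D n x lam hQ hlam => ?_⟩
  set g : ℕ → ℝ := fun d => ∑ a ∈ (range d).filter (fun a => Nat.Coprime a d),
    ‖∑ l ∈ Ioc x (x + n), (lam l : ℂ) * ee (a * l / d)‖ ^ 2 with hg
  have hg0 : ∀ d, 0 ≤ g d := fun d => sum_nonneg fun _ _ => sq_nonneg _
  have hLS : ∀ F : ℕ, ∑ d ∈ Icc 1 F, g d ≤ 6 * ((n : ℝ) + (F : ℝ) ^ 2) * n := by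
    intro F
    have h1 := Pool.Agent.Helper112.additive_large_sieve n F (fun m => (lam (x + m) : ℂ))
    have h2 : ∑ d ∈ Icc 1 F, g d = ∑ f ∈ Icc 1 F, ∑ a ∈ (range f).filter (fun a => a.Coprime f),
        ‖∑ m ∈ Icc 1 n, (lam (x + m) : ℂ) * Pool.Agent.Helper112.ee (m * a / f)‖ ^ 2 := by
      refine sum_congr rfl fun d _ => sum_congr rfl fun a _ => ?_
      rw [shift]
    rw [h2]
    refine h1.trans ?_
    refine mul_le_mul_of_nonneg_left ?_ (by positivity)
    calc ∑ m ∈ Icc 1 n, ‖(lam (x + m) : ℂ)‖ ^ 2 ≤ ∑ _m ∈ Icc 1 n, (1 : ℝ) := by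
          refine sum_le_sum fun m _ => ?_
          rw [Complex.norm_real, Real.norm_eq_abs]
          exact pow_le_one₀ (abs_nonneg _) (hlam _)
      _ = n := by simp
  have hG : ∀ k : ℕ, ∑ d ∈ Ioc Q k, g d ≤ 6 * ((n : ℝ) + (k : ℝ) ^ 2) * n := by
    intro k
    refine le_trans ?_ (hLS k)
    refine sum_le_sum_of_subset_of_nonneg ?_ fun d _ _ => hg0 d
    intro d hd
    rw [mem_Ioc] at hd
    rw [mem_Icc]
    omega
  have hQ0 : (0 : ℝ) < Q := by exact_mod_cast hQ
  have hn0 : (0 : ℝ) ≤ n := Nat.cast_nonneg n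
  have key : ∀ j : ℕ, ∑ d ∈ Ioc Q (Q + j), (1 / (d : ℝ)) * g d ≤
      (∑ d ∈ Ioc Q (Q + j), g d) / ((Q + j : ℕ) : ℝ) +
        6 * (n : ℝ) ^ 2 * (1 / Q - 1 / ((Q + j : ℕ) : ℝ)) + 6 * n * j := by
    intro j
    induction j with
    | zero => simp
    | succ j ih =>
      have h1 : Ioc Q (Q + (j + 1)) = insert (Q + j + 1) (Ioc Q (Q + j)) := by
        ext d
        simp only [mem_Ioc, mem_insert]
        omega
      have h2 : Q + j + 1 ∉ Ioc Q (Q + j) := by
        rw [mem_Ioc]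
        omega
      rw [h1, sum_insert h2, sum_insert h2]
      set k : ℝ := ((Q + j : ℕ) : ℝ) with hk
      have hk0 : 0 < k := by
        rw [hk]
        have : 0 < Q + j := by omega
        exact_mod_cast this
      have e1 : ((Q + j + 1 : ℕ) : ℝ) = k + 1 := by
        rw [hk]
        push_cast
        ring
      have e2 : ((Q + (j + 1) : ℕ) : ℝ) = k + 1 := by
        rw [hk]
        push_cast
        ring
      rw [e1, e2]
      set G : ℝ := ∑ d ∈ Ioc Q (Q + j), g d with hGdef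
      have hGk : G ≤ 6 * (n + k ^ 2) * n := hG (Q + j)
      have h3 : G / k ≤ G / (k + 1) + 6 * (n : ℝ) ^ 2 * (1 / k - 1 / (k + 1)) + 6 * n := by
        have h4 : G / k = G / (k + 1) + G / (k * (k + 1)) := by
          field_simp
        have h5 : G / (k * (k + 1)) ≤ 6 * (n + k ^ 2) * n / (k * (k + 1)) :=
          div_le_div_of_nonneg_right hGk (by positivity)
        have h6 : 6 * (n + k ^ 2) * n / (k * (k + 1)) =
            6 * (n : ℝ) ^ 2 * (1 / k - 1 / (k + 1)) + 6 * n * (k / (k + 1)) := by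
          field_simp
          ring
        have h7 : k / (k + 1) ≤ 1 := by
          rw [div_le_one (by positivity)]
          linarith
        have h8 : 6 * (n : ℝ) * (k / (k + 1)) ≤ 6 * n := by nlinarith
        linarith
      have h9 : (g (Q + j + 1) + G) / (k + 1) = g (Q + j + 1) / (k + 1) + G / (k + 1) := add_div _ _ _
      have h10 : 1 / (k + 1) * g (Q + j + 1) = g (Q + j + 1) / (k + 1) := by ring
      rw [h9, h10]
      push_cast
      have h11 : 6 * (n : ℝ) ^ 2 * (1 / Q - 1 / (k + 1)) = 6 * (n : ℝ) ^ 2 * (1 / Q - 1 / k) +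
          6 * (n : ℝ) ^ 2 * (1 / k - 1 / (k + 1)) := by ring
      rw [h11]
      linarith
  rcases le_total Q D with hQD | hQD
  · obtain ⟨j, rfl⟩ := Nat.exists_eq_add_of_le hQD
    refine (key j).trans ?_
    set k : ℝ := ((Q + j : ℕ) : ℝ) with hk
    have hk0 : 0 < k := by
      rw [hk]
      have : 0 < Q + j := by omega
      exact_mod_cast this
    have hjk : (j : ℝ) ≤ k := by
      rw [hk]
      have : j ≤ Q + j := by omega
      exact_mod_cast this
    have h1 : (∑ d ∈ Ioc Q (Q + j), g d) / k ≤ 6 * (n : ℝ) ^ 2 * (1 / k) + 6 * n * k := by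
      have h2 : (∑ d ∈ Ioc Q (Q + j), g d) / k ≤ 6 * (n + k ^ 2) * n / k :=
        div_le_div_of_nonneg_right (hG (Q + j)) hk0.le
      refine h2.trans (le_of_eq ?_)
      field_simp
    have h2 : 6 * (n : ℝ) * j ≤ 6 * n * k := mul_le_mul_of_nonneg_left hjk (by positivity)
    have h3 : (n : ℝ) ^ 2 / Q = (n : ℝ) ^ 2 * (1 / Q) := by ring
    have h4 : 0 ≤ (n : ℝ) ^ 2 * (1 / Q) := by positivity
    rw [h3]
    nlinarith
  · rw [Ioc_eq_empty (by omega), sum_empty]
    positivity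

end Pool.Agent.N494.GN
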